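import Pool.Agent.Lib.KR14.Lim
import Pool.Agent.Lib.RB.B_RLQ
import Pool.Agent.Lib.RB.B_RCT
import Pool.Agent.Lib.GH.B_GLIM
import Pool.Agent.Lib.GH.B_GFLT
import Pool.Agent.Lib.GH.B_GBIG

/-! Project kr24: semi-ampleness from the twisted inequality of Chern and Lu. -/

open scoped Classical Topology ContDiff ComplexOrder Matrix
open Set MeasureTheory Complex Metric Filter

noncomputable section

namespace Pool.Agent.Lib.K14

open Pool.Agent.Lib.SV (E)
open Pool.Agent.Lib.HS32 Pool.Agent.Lib.HS32.Mf Pool.Agent.Lib.HS76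

variable {n : ℕ} {M : Mf n} [M.Cpt] {H B P : M.Fam (Mat n)} {k : ℕ}

theorem sol_ex (hn : 0 < n) (hK : M.Kae H) (hB : M.Clo B) (h0 : M.Le 0 B)
    (h1 : M.Le 0 (-M.ric H)) (ε : ℝ) (hε : 0 < ε) : ∃ u, M.SolB H B ε u := by
  have s0 : M.Sm fun _ => (0 : ℝ) := sm_const 0
  obtain ⟨u, u1, u2, u3⟩ := RB.solve HS.asAUBIN hn hK.toMet (T := ε • H + B) s0
    ⟨(((hK.toClo.smul ε).add hB).sub ((mHES n M).2.2.2.2.2.2.2.2.1 H hK.toMet)).add
      ((mHES n M).1 _ s0), fun e he z hz => by
        have a := ((pd_rsmul (hK.pos e he z hz) hε).add_posSemidef (h0 e he z hz)).add_posSemidef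
          (h1 e he z hz)
        simp only [Pi.add_apply, Pi.sub_apply, Pi.smul_apply, Pi.zero_apply, Pi.neg_apply,
          sub_zero] at a ⊢
        rwa [((mLAP n M _ _ s0 s0).1 0 e he z hz).1, add_zero, sub_eq_add_neg]⟩
  exact ⟨u, u1, u2, u3⟩

theorem mean_tr {ε : ℝ} {u : M.X → ℝ} (hK : M.Kae H) (hB : M.Clo B) (h1 : M.Le 0 (-M.ric H))
    (hε : 0 < ε) (hu : M.SolB H B ε u) :
    (∫ x, ε * M.tr (M.gB H B ε u) B x * Real.exp (u x) ∂M.mu H) / M.vB H B ε ≤ ε * n := by
  obtain ⟨v1, v0, -⟩ := vv_sol hK hB hu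
  have hG := hu.kae.toMet
  obtain ⟨-, hfin, -, -, hint, -⟩ := mMU n M _ hG
  have hs := ((mLAP n M _ _ hu.sm hu.sm).2.2 _ hG).1
  have a := integral_mono (μ := M.mu (M.gB H B ε u)) (g := fun x => n - M.lap (M.gB H B ε u) u x)
    (hint ℝ _ ((mINV n M _ hG).1 B hB.toTen).2.1.continuous)
    (hint ℝ _ ((sm_const _).sub hs).continuous) fun x => by
      have b : M.tr (M.gB H B ε u) (ε • H + B - M.ric H + M.hs u) x = n := hG.tr_self
      rw [tr_add, tr_sub, tr_add, tr_smul] at b
      have c := hG.tr_nonneg h1 x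
      rw [tr_neg] at c
      have d := mul_nonneg hε.le (hG.tr_nonneg hK.toMet.nonneg x)
      beta_reduce
      rw [lap]
      linarith
  rw [integral_sub (integrable_const _) (hint ℝ _ hs.continuous), integral_const,
    ((mGRN n M).2 _ u u hu.kae hu.sm hu.sm).1, smul_eq_mul, v1, sub_zero] at a
  rw [← int_sol hK hu, integral_const_mul, div_le_iff₀ v0, mul_assoc, mul_comm (n : ℝ)]
  exact mul_le_mul_of_nonneg_left a hε.le

/-- The flat field. -/
theorem flat (hn : 0 < n) (hK : M.Kae H) (hB : M.Clo B) (h0 : M.Le 0 B) (h1 : M.Le 0 (-M.ric H))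
    (hq : M.TwB H B) (hk : k ≤ n) {c : ℝ} (hc : 0 < c)
    (hlim : Tendsto (fun ε => M.vB H B ε / ε ^ k) (𝓝[>] 0) (𝓝 c)) :
    ∃ P, M.Fl1 H P k ∧ M.All fun e z => B e z * P e z = 0 := by
  have hl : (hyperfilter ℕ : Filter ℕ) ≤ atTop := Nat.hyperfilter_le_atTop
  have hM := hK.toMet
  choose! w hw using sol_ex hn hK hB h0 h1
  obtain ⟨ε, hε, e0⟩ : ∃ ε : ℕ → ℝ, (∀ j, ε j ∈ Ioc (0 : ℝ) 1) ∧ Tendsto ε atTop (𝓝 0) :=
    ⟨fun j => 1 / ((j : ℝ) + 1), fun j => ⟨by positivity, by
      rw [div_le_one (by positivity)]; linarith [Nat.cast_nonneg (α := ℝ) j]⟩,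
      tendsto_one_div_add_atTop_nhds_zero_nat⟩
  have e1 : Tendsto ε atTop (𝓝[>] 0) :=
    tendsto_nhdsWithin_iff.2 ⟨e0, Eventually.of_forall fun j => (hε j).1⟩
  have hu := fun j => hw _ (hε j).1
  have ht := (key hK hB hq hk hc hlim hw).comp e1
  obtain ⟨P, hP, hL⟩ := lim hn hK hB hq hε e0 hu ht
  obtain ⟨p1, -, p2, p3⟩ := HS.asPAR n M H P hK hP
  have d1 : ∀ s : ℝ, M.All fun e z => (1 + s • P e z).det = ((1 + s : ℝ) : ℂ) ^ k :=
    fun s e he z hz => HS.PDET.det_ext _ k (fun t t0 => by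
      obtain ⟨d, hd⟩ := p3 t
      have a := ((((ord_ratio hc hlim (t := 1 + t) (by positivity)).comp e1).mono_left
        hl).sub_const d)
      rw [hd e he z hz, ← sub_eq_zero.1 (tendsto_nhds_unique a
        (det_lim hn hK hB hq hε hu hP.en hL t0 hd)), ofReal_pow]) s
  have id : M.All fun e z => P e z * P e z = P e z := fun e he z hz =>
    (proj_of_det (k := k) (hK.pos e he z hz) (hP.herm e he z hz) fun s => by
      rw [← rsm, d1 s e he z hz, ofReal_add, ofReal_one]).1
  have gl := fun b hb => GH.st_GLIM n M H H P _ (hyperfilter ℕ) b hM hM hl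
    (fun j => (q_end hM (hu j).kae.toMet (hε j).1).1) hP.en hL hb
  have b0 : M.All fun e z => (B e z).PosSemidef := fun e he z hz => by simpa using h0 e he z hz
  have kb : M.All fun e z => B e z * P e z = 0 := fun e he z hz => by
    have n1 := nl_mean hK hB hε hu (y := fun j x => ε j * M.tr (M.gB H B (ε j) (w (ε j))) B x)
      (fun j x => mul_nonneg (hε j).1.le ((hu j).kae.toMet.tr_nonneg h0 x))
      (fun j => ((mINV n M _ (hu j).kae.toMet).1 B hB.toTen).2.1.const_mul _)
      (squeeze_zero (fun j => div_nonneg (integral_nonneg fun x => mul_nonneg (mul_nonneg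
        (hε j).1.le ((hu j).kae.toMet.tr_nonneg h0 x)) (Real.exp_pos _).le)
        (vv_sol hK hB (hu j)).2.1.le) (fun j => mean_tr hK hB h1 (hε j).1 (hu j))
        (by simpa using e0.mul_const (n : ℝ)))
    have a := gl _ n1 e he (fun p => (p.2 * (H e p.1)⁻¹ * B e p.1).trace.re)
      (fun p hp => (Complex.continuous_re.continuousAt.comp
        (continuous_id.matrix_trace.continuousAt.comp ((continuousAt_snd.mul
          (((hK.sm e he _ hp.1).inv (hM.det_ne e he _ hp.1)).continuousAt.comp_of_eq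
            continuousAt_fst rfl)).mul ((hB.sm e he _ hp.1).continuousAt.comp_of_eq
              continuousAt_fst rfl)))).continuousWithinAt)
      (fun j y hy => by
        beta_reduce
        rw [((mINV n M _ (hu j).kae.toMet).1 B hB.toTen).1 e he y hy, qE, Matrix.smul_mul,
          Matrix.mul_nonsing_inv_cancel_right _ _ (hM.det_ne e he y hy).isUnit, Matrix.smul_mul,
          Matrix.trace_smul, smul_re, smul_eq_mul]) z hz
    have b := congrArg (· * H e z) (mul_zero_of_tr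
      (GH.G10.psd_proj (hK.pos e he z hz) (hP.herm e he z hz) (id e he z hz)) (b0 e he z hz) a)
    simpa only [Matrix.mul_assoc, Matrix.nonsing_inv_mul _ (hM.det_ne e he z hz).isUnit,
      Matrix.mul_one, Matrix.zero_mul] using b
  have fl : M.All fun e z => ∀ a b, th (H e) a b z * P e z = 0 := fun e he z hz a b => by
    have loc := HS68.met_loc hM he hz
    have kl := HS68.clo_kl hK.toClo he hz
    refine flat_res loc.pos (id e he z hz) (hP.herm e he z hz) (p2 e he z hz) (loc.mul_th_symm kl)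
      (loc.mul_th_symm' kl) loc.mul_th_herm (fun v hv => ?_) ?_ a b
    · have q := hq e he z hz _ (Matrix.posSemidef_vecMulVec_self_star v)
      have z0 : B e z * Matrix.vecMulVec v (star v) = 0 := by
        rw [Matrix.mul_vecMulVec, ← hv, Matrix.mulVec_mulVec, kb e he z hz, Matrix.zero_mulVec,
          Matrix.zero_vecMulVec]
      rw [Matrix.trace_mul_comm, Matrix.mul_assoc, ← Matrix.mul_assoc (B e z), z0,
        Matrix.zero_mul, Matrix.trace_zero, zero_re, add_zero, qx, neg_re, neg_nonneg] at q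
      refine le_of_eq_of_le (congrArg _ (Finset.sum_congr rfl fun k _ => Finset.sum_congr rfl
        fun l _ => ?_)) q
      rw [Matrix.mul_assoc, Matrix.vecMulVec_mul, Matrix.trace_vecMulVec, dotProduct_comm v,
        ← Matrix.dotProduct_mulVec]
      rfl
    · have q := gl _ (nl_mean hK hB hε hu (fun j => y_nonneg hK hB.toForm hq (hε j).1 (hu j))
        (fun j => y_sm hM (hu j).kae.toMet) ht) e he
        (fun p => (qx (H e) (p.2 * (H e p.1)⁻¹) p.1).re)
        (fun p hp => (RB.R10.cont_qx (hK.sm e he _ hp.1) (hM.det_ne e he _ hp.1)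
          _).continuousWithinAt)
        (fun j y hy => by
          have a1 := y_eq hK hB.toForm (hu j) e he y hy
          have a2 := (y_ge hK hB.toForm hq (hε j).1 (hu j) e he y hy).1
          have a3 := mul_nonneg (hε j).1.le (tr_mul_nonneg (conj_inv_psd
            ((hu j).kae.pos e he y hy) (hK.pos e he y hy).posSemidef) (b0 e he y hy) |>
            Complex.nonneg_iff.1).1
          have a4 := y_nonneg hK hB.toForm hq (hε j).1 (hu j) (e.symm y)
          refine (RB.R10.qx_eq (hK.pos e he y hy) (ε j)).trans_le ?_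
          change ε j * (ε j * (qx (H e) (M.gB H B (ε j) (w (ε j)) e y)⁻¹ y).re) ≤ _
          nlinarith [(hε j).1, (hε j).2]) z hz
      rw [qx, neg_re, neg_nonpos] at q
      simpa only [Matrix.mul_assoc] using q
  have t0 : M.All fun e z => ∀ a b, tors (H e) z a b = 0 := fun e he z hz =>
    tors_zero (hK.cl e he z hz)
  exact ⟨P, ⟨⟨hP, hk, p1, id, d1, fl, fun e he z hz a b =>
    (p2 e he z hz a b).symm.trans (fl e he z hz a b)⟩, fun e he z hz a b => by
      rw [t0 e he z hz, Matrix.mulVec_zero], fun e he z hz a b => t0 e he z hz _ _⟩, kb⟩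

/-- The twisted class has positive volume. -/
theorem vol_pos (hK : M.Kae H) (hB : M.Clo B) (hf : M.Fl1 H P k) {c : ℝ} (hc : 0 < c)
    (hlim : Tendsto (fun ε => M.vB H B ε / ε ^ k) (𝓝[>] 0) (𝓝 c))
    (kb : M.All fun e z => B e z * P e z = 0) :
    0 < ∫ x, M.dq H (H * P + B - M.ric H) x ∂M.mu H := by
  obtain ⟨-, a2, -, -, a4⟩ := GH.st_GPRD n M H P k hK.toMet hf
  have hr := (mHES n M).2.2.2.2.2.2.2.2.1 H hK.toMet
  have cg := RB.R56.step hK.toMet (S := fun _ : ℝ => H * P + B - M.ric H) (T := H - H * P)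
    (t := id) (fun _ => ((a2.add hB).sub hr).toTen) (hK.toClo.sub a2).toTen continuous_id
    fun _ => continuous_const
  have l2 := (cg.tendsto 0).mono_left (nhdsWithin_le_nhds (s := Ioi 0))
  simp only [id, zero_smul, add_zero] at l2
  refine hc.trans_eq (tendsto_nhds_unique hlim (l2.congr' ?_))
  filter_upwards [self_mem_nhdsWithin] with ε hε
  rw [eq_div_iff (pow_pos hε k).ne', vB, ← integral_mul_const]
  refine congrArg _ (funext fun x => ?_)
  have h1 := GH.G92.fac (M.ev H x) (M.ev P x) (M.ev (M.ric H) x - M.ev B x) ε (AllOn.ch hf.idem x)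
    (by rw [Matrix.sub_mul, ev, ev, ev, AllOn.ch a4 x, AllOn.ch kb x, sub_self])
  have h2 : (1 + (ε - 1) • M.ev P x).det = _ := AllOn.ch (hf.det (ε - 1)) x
  change ((M.ev H x * M.ev P x + M.ev B x - M.ev (M.ric H) x +
    ε • (M.ev H x - M.ev H x * M.ev P x)).det / (M.ev H x).det).re * _ =
    ((ε • M.ev H x + (M.ev B x - M.ev (M.ric H) x)).det / (M.ev H x).det).re
  rw [sub_sub_eq_add_sub, sub_sub_eq_add_sub] at h1
  rw [← add_sub_assoc, h1, Matrix.det_mul, h2, add_sub_cancel, mul_div_right_comm, ← ofReal_pow,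
    re_mul_ofReal]

/-- A compact Kähler manifold with semi-negative Ricci form whose real bisectional curvature is
controlled by the Ricci form has a semi-ample canonical bundle. -/
theorem stage2 (M : Mf n) [M.Cpt] {H : M.Fam (Mat n)} {C : ℝ} (hn : 0 < n) (hH : M.Kae H)
    (hC : 0 ≤ C) (h1 : M.Le 0 (-M.ric H))
    (h2 : M.All fun e z => ∀ ξ : Mat n, ξ.PosSemidef →
      0 ≤ (qx (H e) ξ z).re + C * (ξ * H e z * ξ * -M.ric H e z).trace.re) : M.Semi := by
  have hr := (mHES n M).2.2.2.2.2.2.2.2.1 H hH.toMet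
  have hB : M.Clo (C • -M.ric H) := hr.neg.smul C
  have h0 : M.Le 0 (C • -M.ric H) := by simpa only [smul_zero] using h1.smul hC
  have hq : M.TwB H (C • -M.ric H) := fun e he z hz ξ hξ => by
    simpa only [Pi.smul_apply, Pi.neg_apply, Matrix.mul_smul, Matrix.trace_smul, smul_re,
      smul_eq_mul] using h2 e he z hz ξ hξ
  obtain ⟨k, hk, c, hc, hlim⟩ := ord hH hB.toForm fun ε hε =>
    let ⟨_, hu⟩ := sol_ex hn hH hB h0 h1 ε hε
    (vv_sol hH hB hu).2.1
  obtain ⟨P, hf, kb⟩ := flat hn hH hB h0 h1 hq hk hc hlim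
  obtain ⟨a1, a2, a3, -, a4⟩ := GH.st_GPRD n M H P k hH.toMet hf
  have b1 := a2.add hB
  have b2 : M.Le 0 (H * P + C • -M.ric H) := by simpa only [add_zero] using a3.add h0
  have hex := sol_ex hn hH b1 b2 h1
  obtain ⟨c', C', hc0, hb⟩ := RB.big hH hH.toMet b1 hex (vol_pos hH hB hf hc hlim kb)
  obtain ⟨ε, s1, hε⟩ := ((small hn hH b1 (TwB.mono hq hH.toMet (by
    simpa only [zero_add] using a3.add (Le.refl (C • -M.ric H)))) hc0 hb).and
      self_mem_nhdsWithin).exists
  obtain ⟨u, hu⟩ := hex ε hε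
  obtain ⟨w, w1, w2, -⟩ := GH.stGKE HS.asAUBIN n M H H _ ε u hn hH hH.toMet b1 hε hu (s1 u hu)
  have p : 0 < (1 + C)⁻¹ := by positivity
  have w3 := w1.const_mul (1 + C)⁻¹
  obtain ⟨v, v1, v2, v3⟩ := GH.K66.solve HS.asAUBIN hn hH.toMet (B := H * P) w3
    ⟨a2.add (((mHES n M).1 _ w3).sub hr), fun e he z hz => by
      have q := (pd_rsmul (w2.pos e he z hz) p).add_posSemidef
        (psd_rsmul (a3 e he z hz) (mul_nonneg p.le hC))
      simp only [theta, Pi.add_apply, Pi.sub_apply, Pi.smul_apply, Pi.zero_apply, Pi.neg_apply,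
        sub_zero] at q ⊢
      rw [((mLAP n M _ _ w1 w1).1 (1 + C)⁻¹ e he z hz).2.2.2.1]
      refine Eq.subst (motive := Matrix.PosDef) ?_ q
      match_scalars <;> field_simp <;> ring⟩
  have v4 := GH.st_GUT' n M H P k v hH.toMet hf a1 v1 v2 v3
  obtain ⟨G, hG⟩ := GH.st_GPOS' n M H P k v hH.toMet hf a1 v1 v2 v3 fun e he z hz => by
    simp only [Mf.theta, Pi.sub_apply]
    rw [sub_mul, v4 e he z hz, a4 e he z hz, sub_self]
  exact HS.asPEAK n M _ _ hn hG.kH hG.sm hG.psd (HS.asSEC4 n M _ P G k _ hn hG)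

end Pool.Agent.Lib.K14
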