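import Pool.Agent.Lib.RB.Flat85
import Pool.Agent.Lib.RB.Defs

/-! Project kr24: pointwise algebra for the limit projection. -/

open scoped ComplexOrder MatrixOrder
open Matrix

namespace Pool.Agent.Lib.K14

open Pool.Agent.Lib.HS76

section alg

variable {n : Type*} [Fintype n] [DecidableEq n]

theorem mul_zero_of_tr {A B : Matrix n n ℂ} (hA : A.PosSemidef) (hB : B.PosSemidef)
    (h : (A * B).trace.re ≤ 0) : B * A = 0 := by
  obtain ⟨W, rfl⟩ := psd_eq_mul hA
  obtain ⟨V, rfl⟩ := psd_eq_mul hB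
  have e : (W * Wᴴ * (V * Vᴴ)).trace = ((Vᴴ * W)ᴴ * (Vᴴ * W)).trace := by
    rw [conjTranspose_mul, conjTranspose_conjTranspose, Matrix.mul_assoc, trace_mul_comm]
    simp only [Matrix.mul_assoc]
  have p := Complex.nonneg_iff.1 (posSemidef_conjTranspose_mul_self (Vᴴ * W)).trace_nonneg
  rw [e] at h
  have z := trace_conjTranspose_mul_self_eq_zero_iff.1
    (Complex.ext (le_antisymm h p.1) p.2.symm)
  rw [Matrix.mul_assoc, ← Matrix.mul_assoc Vᴴ, z, Matrix.zero_mul, Matrix.mul_zero]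

/-- The curvature vanishes on the image of the projection if the holomorphic sectional curvature
is non-positive on this image. -/
theorem flat_res {H P : Matrix n n ℂ} {Th : n → n → Matrix n n ℂ}
    (hHp : H.PosDef) (hPP : P * P = P) (hP : (H * P).IsHermitian)
    (hc : ∀ k l, Th k l * P = P * Th k l)
    (h13 : ∀ k l a b, (H * Th k l) b a = (H * Th a l) b k)
    (h24 : ∀ k l a b, (H * Th k l) b a = (H * Th k b) l a)
    (hh : ∀ k l, (H * Th k l)ᴴ = H * Th l k)
    (hH : ∀ v : n → ℂ, P *ᵥ v = v →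
      (∑ k, ∑ l, v k * star (v l) * (star v ⬝ᵥ (H * Th k l) *ᵥ v)).re ≤ 0)
    (h0 : 0 ≤ (∑ k, ∑ l, (P * H⁻¹) k l * (P * H⁻¹ * (H * Th k l)).trace).re) (k l : n) :
    Th k l * P = 0 := by
  have hd : IsUnit H.det := (isUnit_iff_isUnit_det _).mp hHp.isUnit
  have e1 : Pᴴ * H = H * P := by rw [← hP.eq, conjTranspose_mul, hHp.1.eq]
  set R : n → n → n → n → ℂ := fun k l i j => (H * Th k l) j i with hR
  set R' : n → n → n → n → ℂ := fun k l i j => (H * (Th k l * P)) j i with hR'
  have k4 : K4 (q4 R) := k4_q4 (fun k l i j => h13 k l i j) fun k l i j => h24 k l i j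
  have f0 : ∀ a b v w, q4 R' a b v w = q4 R a b (P *ᵥ v) w := fun a b v w => by
    rw [hR, hR', q4_fam (fun k l => H * Th k l), q4_fam (fun k l => H * (Th k l * P))]
    simp only [mulVec_mulVec, Matrix.mul_assoc]
  have f1 : ∀ a b v w, q4 R a b (P *ᵥ v) w = q4 R a b v (P *ᵥ w) := fun a b v w => by
    rw [hR, q4_fam (fun k l => H * Th k l), q4_fam (fun k l => H * Th k l)]
    refine Finset.sum_congr rfl fun k _ => Finset.sum_congr rfl fun l _ => ?_
    rw [mulVec_mulVec, Matrix.mul_assoc, hc, ← Matrix.mul_assoc, ← e1, star_mulVec,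
      ← dotProduct_mulVec, mulVec_mulVec, Matrix.mul_assoc]
  have pp : ∀ v, P *ᵥ P *ᵥ v = P *ᵥ v := fun v => by rw [mulVec_mulVec, hPP]
  have f2 : ∀ a b v w, q4 R a b (P *ᵥ v) w = q4 R a b (P *ᵥ v) (P *ᵥ w) := fun a b v w => by
    rw [← f1 a b (P *ᵥ v) w, pp]
  have f3 : ∀ a b v w, q4 R' a b v w = q4 R (P *ᵥ a) (P *ᵥ b) (P *ᵥ v) (P *ᵥ w) :=
    fun a b v w => by
      rw [f0, f2, k4.s13, ← f1, f2, k4.s24, f2, k4.swap]
  have := flat_fam (Th := fun k l => Th k l * P) hHp hPP hP
    (fun k l => by rw [← Matrix.mul_assoc, ← hc])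
    (fun k l a b => by
      change R' k l a b = R' a l k b
      rw [← RB85.q4_single R', ← RB85.q4_single R' a, f3, f3, k4.s13])
    (fun k l a b => by
      change R' k l a b = R' k b a l
      rw [← RB85.q4_single R', ← RB85.q4_single R' k b, f3, f3, k4.s24])
    (fun k l => by
      rw [← Matrix.mul_assoc, conjTranspose_mul, hh, ← Matrix.mul_assoc, e1, Matrix.mul_assoc,
        hc])
    (fun v => by
      rw [← q4_fam (fun k l => H * (Th k l * P)), ← hR', f3, hR, q4_fam (fun k l => H * Th k l)]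
      exact hH _ (pp v))
    (h0.trans_eq (congrArg _ (Finset.sum_congr rfl fun k _ => Finset.sum_congr rfl
      fun l _ => by
        rw [← Matrix.mul_assoc H, ← Matrix.mul_assoc _ _ P, trace_mul_comm _ P,
          ← Matrix.mul_assoc P, ← Matrix.mul_assoc P, hPP]))) k l
  rwa [Matrix.mul_assoc, hPP] at this

end alg

open Pool.Agent.Lib.SV (E)
open Pool.Agent.Lib.HS32

theorem tors_zero {n : ℕ} {H : E n → Mat n} {z : E n} (h : ClM H z) (a b : E n) :
    tors H z a b = 0 := by
  have c : ∀ i j l, gam H l z i j = gam H j z i l := fun i j l => by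
    simp only [gam, Matrix.mul_apply, h _ j l]
  funext i
  simp only [tors, asy, Pi.sub_apply, Pi.zero_apply, sub_eq_zero]
  simp only [Matrix.mulVec, dotProduct, Matrix.sum_apply, Matrix.smul_apply, smul_eq_mul,
    Finset.sum_mul]
  rw [Finset.sum_comm]
  exact Finset.sum_congr rfl fun j _ => Finset.sum_congr rfl fun l _ => by rw [c i l j]; ring

end Pool.Agent.Lib.K14
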