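import Pool.Agent.Lib.KR14.Phi
import Pool.Agent.Lib.RB.TAll

/-! Project kr24: the Schwarz lemma and the variance identity for the twisted equation. -/

open scoped Topology ComplexOrder Matrix
open Set MeasureTheory Filter

noncomputable section

namespace Pool.Agent.Lib.HS32.Mf

variable {n : ℕ} (M : Mf n)

/-- The curvature term of the identity of Chern and Lu is bounded below by `-B`. -/
def TwB (H B : M.Fam (Mat n)) : Prop := M.All fun e z => ∀ ξ : Mat n, ξ.PosSemidef →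
  0 ≤ (qx (H e) ξ z).re + (ξ * H e z * ξ * B e z).trace.re

/-- The quantity `ε (E + Q)` for the twisted equation. -/
def yB (G H : M.Fam (Mat n)) (ε : ℝ) (x : M.X) : ℝ :=
  ε * M.lap G (M.tr G H) x + (ε * M.tr G H x - ε ^ 2 * M.ip G H H x)

end Pool.Agent.Lib.HS32.Mf

namespace Pool.Agent.Lib.K14

open Pool.Agent.Lib.HS32 Pool.Agent.Lib.HS32.Mf Pool.Agent.Lib.HS76
open Pool.Agent.Lib.GH.G34 (sol_det sol_ric)

variable {n : ℕ} {M : Mf n} {H B B' : M.Fam (Mat n)} {ε : ℝ} {u : M.X → ℝ}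

theorem TwB.mono (h : M.TwB H B) (hH : M.Met H) (hl : M.Le B B') : M.TwB H B' :=
  fun e he z hz ξ hξ => by
    have a := (hH.pos e he z hz).posSemidef.mul_mul_conjTranspose_same ξ
    rw [hξ.1.eq] at a
    linarith [h e he z hz ξ hξ, tr_mul_mono a (hl e he z hz)]

theorem ip_sol (hK : M.Kae H) (hu : M.SolB H B ε u) (x : M.X) :
    M.ip (M.gB H B ε u) H (M.ric (M.gB H B ε u)) x =
      ε * M.ip (M.gB H B ε u) H H x + M.ip (M.gB H B ε u) H B x - M.tr (M.gB H B ε u) H x := by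
  rw [ip_congr (G := M.gB H B ε u) (G' := M.gB H B ε u) (S := H) (S' := H)
    (T := M.ric (M.gB H B ε u)) (T' := ε • H + B - M.gB H B ε u) (fun _ _ _ _ => rfl)
    (fun _ _ _ _ => rfl) (sol_ric hK hu), ip_sub, ip_add, ip_smul, hu.kae.toMet.ip_self]

theorem y_eq (hK : M.Kae H) (hB : M.Form B) (hu : M.SolB H B ε u) : M.All fun e z =>
    M.yB (M.gB H B ε u) H ε (e.symm z) = ε * ((en (M.gB H B ε u e) (H e) (H e) z).re +
      ((qx (H e) (M.gB H B ε u e z)⁻¹ z).re +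
        ((M.gB H B ε u e z)⁻¹ * H e z * (M.gB H B ε u e z)⁻¹ * B e z).trace.re)) :=
  fun e he z hz => by
    have a := ((HS.asCLG n M _ H hu.kae hK).2.2.1 e he z hz).1
    have b : M.ip (M.gB H B ε u) H B (e.symm z) = _ :=
      ((mINV n M _ hu.kae.toMet).2.2.1 H B hK.toTen hB.toTen).1 e he z hz
    beta_reduce at b ⊢
    rw [yB, a, ip_sol hK hu, b]
    change _ = ε * (_ + ((qq (M.gB H B ε u e) (H e) z).re + _))
    ring

theorem y_sm {G : M.Fam (Mat n)} (hK : M.Met H) (hG : M.Met G) : M.Sm (M.yB G H ε) := by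
  have hS := ((mINV n M G hG).1 H hK.toTen).2.1
  exact (((mLAP n M _ _ hS hS).2.2 _ hG).1.const_mul ε).add ((hS.const_mul ε).sub
    (((mINV n M G hG).2.2.1 H H hK.toTen hK.toTen).2.1.const_mul _))

theorem y_ge (hK : M.Kae H) (hB : M.Form B) (hq : M.TwB H B) (hε : 0 < ε) (hu : M.SolB H B ε u) :
    M.All fun e z => 0 ≤ ε * (en (M.gB H B ε u e) (H e) (H e) z).re ∧
      ε * (en (M.gB H B ε u e) (H e) (H e) z).re ≤ M.yB (M.gB H B ε u) H ε (e.symm z) :=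
  fun e he z hz => ⟨mul_nonneg hε.le ((HS.asCLG n M _ H hu.kae hK).2.2.1 e he z hz).2.1, by
    rw [y_eq hK hB hu e he z hz]
    exact mul_le_mul_of_nonneg_left (le_add_of_nonneg_right
      (hq e he z hz _ (hu.kae.pos e he z hz).inv.posSemidef)) hε.le⟩

theorem y_nonneg (hK : M.Kae H) (hB : M.Form B) (hq : M.TwB H B) (hε : 0 < ε)
    (hu : M.SolB H B ε u) (x : M.X) : 0 ≤ M.yB (M.gB H B ε u) H ε x := by
  have a := AllOn.ch (y_ge hK hB hq hε hu) x
  rw [ch_symm] at a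
  exact a.1.trans a.2

theorem log_ge (hn : 0 < n) (hK : M.Kae H) (hB : M.Form B) (hq : M.TwB H B) (hε : 0 < ε)
    (hu : M.SolB H B ε u) (x : M.X) :
    -1 ≤ M.lap (M.gB H B ε u) (fun y => Real.log (M.tr (M.gB H B ε u) H y)) x := by
  obtain ⟨hS, hp, h3, -⟩ := HS.asCLG n M _ H hu.kae hK
  obtain ⟨-, -, c⟩ := AllOn.ch h3 x
  have a := (AllOn.ch (y_ge hK hB hq hε hu) x).2
  rw [ch_symm] at a c
  have b := RB.ip_mono hu.kae.toMet hK.toMet (hK.toMet.smul hε).nonneg x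
  rw [ip_smul, ← zero_smul ℝ H, ip_smul, zero_mul] at b
  rw [(((mLAP n M _ _ hS hS).2.2 _ hu.kae.toMet).2.2.2.1 Real.log
    (fun y => Real.contDiffAt_log.2 (hp hn y).ne') x).1, HS.CLG.deriv2_log, Real.deriv_log]
  refine le_trans ?_ (HS.CLG.last (ip := -M.tr (M.gB H B ε u) H x)
    (q := M.lap (M.gB H B ε u) (M.tr (M.gB H B ε u) H) x + M.tr (M.gB H B ε u) H x -
      (en (M.gB H B ε u (M.ch x)) (H (M.ch x)) (H (M.ch x)) (M.ch x x)).re) (hp hn x) (by ring) c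
    ?_)
  · rw [neg_div, div_self (hp hn x).ne']
  · rw [yB] at a
    refine nonneg_of_mul_nonneg_right ?_ hε
    nlinarith [mul_nonneg hε.le b]

variable [M.Cpt]

theorem sol_tr (hn : 0 < n) (hK : M.Kae H) (hB : M.Form B) (hq : M.TwB H B) (hε : 0 < ε)
    (hu : M.SolB H B ε u) (x : M.X) : ε * M.tr (M.gB H B ε u) H x ≤ n := by
  obtain ⟨hS, hp, -⟩ := HS.asCLG n M _ H hu.kae hK
  obtain ⟨y, hy⟩ := hS.exists_max
  have h1 := ((((mLAP n M _ _ hS hS).2.2 _ hu.kae.toMet).2.2.1 y 0).2.2.2.2.2.2.2.2.1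
    (Eventually.of_forall hy)).1
  have h2 := y_nonneg hK hB hq hε hu y
  rw [yB] at h2
  have h3 := tr_sq_le (hu.kae.toMet.ev_pos y) (hK.toMet.ev_pos y).1
  rw [Fintype.card_fin, ← mul_assoc] at h3
  have h4 : M.tr (M.gB H B ε u) H y ^ 2 ≤ n * M.ip (M.gB H B ε u) H H y := h3
  have h5 : (0 : ℝ) < n := Nat.cast_pos.2 hn
  have h6 : ε * M.ip (M.gB H B ε u) H H y ≤ M.tr (M.gB H B ε u) H y :=
    le_of_mul_le_mul_left (by nlinarith [mul_nonneg hε.le (neg_nonneg.2 h1)]) hε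
  refine (mul_le_mul_of_nonneg_left (hy x) hε.le).trans (le_of_mul_le_mul_right ?_ (hp hn y))
  nlinarith [mul_le_mul_of_nonneg_left h4 hε.le]

theorem sol_le (hn : 0 < n) (hK : M.Kae H) (hB : M.Form B) (hq : M.TwB H B) (hε : 0 < ε)
    (hu : M.SolB H B ε u) : M.Le ((ε / n) • H) (M.gB H B ε u) := fun e he z hz => by
  have h5 : (0 : ℝ) < n := Nat.cast_pos.2 hn
  have h1 := sol_tr hn hK hB hq hε hu (e.symm z)
  rw [((mINV n M _ hu.kae.toMet).1 H hK.toTen).1 e he z hz, ← le_div_iff₀' hε] at h1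
  have h2 : ((n / ε : ℝ) • M.gB H B ε u e z - H e z).PosSemidef :=
    le_tr_smul (hu.kae.pos e he z hz) (hK.pos e he z hz).posSemidef h1
  have h3 := psd_rsmul h2 (div_pos hε h5).le
  rwa [smul_sub, smul_smul, show ε / n * (n / ε) = 1 by field_simp, one_smul] at h3

/-- The trace is small when the twisted class is big. -/
theorem small (hn : 0 < n) (hK : M.Kae H) (hB : M.Clo B) (hq : M.TwB H B) {c C : ℝ} (hc : 0 < c)
    (hv : ∀ ε ∈ Ioc (0 : ℝ) 1, ∀ u, M.SolB H B ε u → c ≤ (M.mu (M.gB H B ε u)).real univ ∧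
      ∫ x, M.dq (M.gB H B ε u) (M.gB H B ε u + H) x ∂M.mu (M.gB H B ε u) ≤ C) :
    ∀ᶠ ε in 𝓝[>] (0 : ℝ), ∀ u, M.SolB H B ε u → ∀ x, ε * M.tr (M.gB H B ε u) H x < 1 := by
  obtain ⟨D, hD, hU⟩ := upper hK hB.toForm
  have h5 : (1 : ℝ) ≤ n := Nat.one_le_cast.2 hn
  have p1 : 0 < D ^ n := by positivity
  have p2 : D ^ n ≤ D ^ n * n ^ (n - 1) := le_mul_of_one_le_right p1.le (one_le_pow₀ h5)
  have hK1 : 1 ≤ D ^ n * n ^ (n - 1) + n := by linarith
  have lo : ∀ ε ∈ Ioc (0 : ℝ) 1, ∀ u, M.SolB H B ε u →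
      M.Le ((ε / (D ^ n * n ^ (n - 1) + n)) • H) (M.gB H B ε u) := fun ε hε u hu =>
    (hK.toMet.le_smul (div_le_div_of_nonneg_left hε.1.le (by linarith) (by linarith))).trans
      (sol_le hn hK hB.toForm hq hε.1 hu)
  obtain ⟨C₂, N, hC₂, q⟩ := GH.G94.gen HS.asCALG M hn hK hK.toForm hB.toForm hK1
  refine GH.G28.core HS.asRHO HS.asPOP M hn hK hK.toMet hB.toForm hc hK1 hC₂
    (fun ε hε u hu => ⟨log_ge hn hK hB.toForm hq hε.1 hu, fun x => ⟨?_, ?_⟩⟩)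
    (fun ε hε u hu => q ε hε _ hu.kae (sol_ric hK hu) (lo ε hε u hu)
      (Le.trans (T := (D ^ n / (ε / n) ^ (Fintype.card (Fin n) - 1)) • H)
        (fun e he z hz => ?_) (hK.toMet.le_smul ?_))) hv
  · have h0 : 0 < ε / (D ^ n * n ^ (n - 1) + n) := div_pos hε.1 (by linarith)
    have h4 := le_det_of_le (hK.toMet.ev_pos x) (hu.kae.toMet.ev_pos x).1 h0.le
      (AllOn.ch (lo ε hε u hu) x)
    have h6 := AllOn.ch (sol_det hK hu) x
    rw [ch_symm] at h6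
    rw [Fintype.card_fin, ev, ev, h6] at h4
    rw [← Real.log_pow, Real.log_le_iff_le_exp (pow_pos h0 n)]
    exact le_of_mul_le_mul_right h4 (pd_det_re (hK.toMet.ev_pos x))
  · linarith [(hU ε hε u hu).2.1 x, Real.add_one_le_exp (u x)]
  · refine le_of_det_le (hK.pos e he z hz) (hu.kae.herm e he z hz) (div_pos hε.1 (by linarith))
      (sol_le hn hK hB.toForm hq hε.1 hu e he z hz) ?_
    rw [sol_det hK hu e he z hz]
    exact mul_le_mul_of_nonneg_right ((hU ε hε u hu).2.1 _) (pd_det_re (hK.pos e he z hz)).le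
  · rw [Fintype.card_fin, div_pow, div_div_eq_mul_div, div_eq_mul_inv, ← inv_pow]
    exact mul_le_mul (by linarith) (pow_le_pow_right₀ ((one_le_inv₀ hε.1).2 hε.2) (Nat.sub_le _ _))
      (by have := hε.1; positivity) (by linarith)

open HS.K87 in
/-- The variance identity. -/
theorem key (hH : M.Kae H) (hB : M.Clo B) (hq : M.TwB H B) {k : ℕ} (hk : k ≤ n) {c : ℝ}
    (hc : 0 < c) (hlim : Tendsto (fun ε => M.vB H B ε / ε ^ k) (𝓝[>] 0) (𝓝 c))
    {u : ℝ → M.X → ℝ} (hu : ∀ ε, 0 < ε → M.SolB H B ε (u ε)) :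
    Tendsto (fun ε => (∫ x, M.yB (M.gB H B ε (u ε)) H ε x * Real.exp (u ε x) ∂M.mu H) /
      M.vB H B ε) (𝓝[>] 0) (𝓝 0) := by
  obtain ⟨α, β, hm, hk'⟩ := nodes_mat n
  obtain ⟨hk1, hk2⟩ := hk' k hk
  set r : Fin (n + 1) → ℝ → ℝ := fun a ε => M.vB H B ((1 + ((a : ℝ) + 1)) * ε) / M.vB H B ε
    with hr
  have hrl : ∀ a, Tendsto (r a) (𝓝[>] 0) (𝓝 ((1 + ((a : ℝ) + 1)) ^ k)) := fun a =>
    ord_ratio hc hlim (by positivity)
  have hA : Tendsto (fun ε => ∑ a, α a * r a ε) (𝓝[>] 0) (𝓝 (k : ℝ)) := by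
    rw [hk1]
    exact tendsto_finsetSum _ fun a _ => (hrl a).const_mul _
  have hA' : Tendsto (fun ε => ∑ a, β a * r a ε) (𝓝[>] 0) (𝓝 ((k : ℝ) ^ 2 - k)) := by
    rw [hk2]
    exact tendsto_finsetSum _ fun a _ => (hrl a).const_mul _
  have hU : Tendsto (fun ε => (∑ a, α a * r a ε) - (∑ a, α a * r a ε) ^ 2 + ∑ a, β a * r a ε)
      (𝓝[>] 0) (𝓝 0) := by
    have := (hA.sub (hA.pow 2)).add hA'
    rwa [show (k : ℝ) - k ^ 2 + (k ^ 2 - k) = 0 by ring] at this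
  refine tendsto_of_tendsto_of_tendsto_of_le_of_le' tendsto_const_nhds hU ?_ ?_
  · filter_upwards [self_mem_nhdsWithin] with ε hε
    exact div_nonneg (integral_nonneg fun x => mul_nonneg
      (y_nonneg hH hB.toForm hq hε (hu ε hε) x) (Real.exp_pos _).le) (vv_sol hH hB (hu ε hε)).2.1.le
  filter_upwards [self_mem_nhdsWithin] with ε hε
  have hS := hu ε hε
  obtain ⟨hv3, hv4, -⟩ := vv_sol hH hB hS
  have hd := vol_sol hH hB hS
  rw [← int_sol hH hS]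
  have hGk := hS.kae
  generalize M.gB H B ε (u ε) = G at *
  have hGm : M.Met G := hGk.toMet
  obtain ⟨-, hfin, -, -, hint, -, -⟩ := mMU n M G hGm
  obtain ⟨hI1, -, hI3, -⟩ := mINV n M G hGm
  have hHm : M.Met H := hH.toMet
  have hT : ∀ s : ℝ, M.Form (G + s • H) := fun s => hGm.toForm.add (hHm.toForm.smul s)
  have hi : ∀ {f : M.X → ℝ}, M.Sm f → Integrable f (M.mu G) := fun hf => hint ℝ _ hf.continuous
  have hdi : ∀ s : ℝ, Integrable (M.dq G (G + s • H)) (M.mu G) := fun s =>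
    hi (hI1 _ (hT s).toTen).2.2.2.1
  have hSs : M.Sm (M.tr G H) := (hI1 H hHm.toTen).2.1
  have hfs : M.Sm fun x => ε * M.tr G H x := hSs.const_mul ε
  have hgs : M.Sm fun x => ε ^ 2 * M.ip G H H x := (hI3 H H hHm.toTen hHm.toTen).2.1.const_mul _
  have hls : M.Sm (M.lap G (M.tr G H)) := ((mLAP n M _ _ hSs hSs).2.2 G hGm).1
  have hpt : ∀ x, ε * M.tr G H x = ∑ a, α a * M.dq G (G + ((((a : ℕ) : ℝ) + 1) * ε) • H) x ∧
      (ε * M.tr G H x) ^ 2 - ε ^ 2 * M.ip G H H x =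
        ∑ a, β a * M.dq G (G + ((((a : ℕ) : ℝ) + 1) * ε) • H) x := fun x => by
    have h1 := hm (M.ev G x) (ε • M.ev H x) (hGm.pos.ch x) ((hHm.toForm.smul ε).herm.ch x)
    simp only [smul_smul, Matrix.mul_smul, Matrix.smul_mul, Matrix.trace_smul, Complex.smul_re,
      smul_eq_mul] at h1
    refine ⟨h1.1, ?_⟩
    rw [pow_two ε]
    exact h1.2
  have hmean : ∀ γ : Fin (n + 1) → ℝ,
      (∫ x, ∑ a, γ a * M.dq G (G + ((((a : ℕ) : ℝ) + 1) * ε) • H) x ∂M.mu G) / M.vB H B ε =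
        ∑ a, γ a * r a ε := fun γ => by
    rw [integral_finsetSum _ fun a _ => (hdi _).const_mul _, Finset.sum_div]
    refine Finset.sum_congr rfl fun a _ => ?_
    rw [integral_const_mul, hd, mul_div_assoc, hr]
    simp only [add_mul (1 : ℝ), one_mul]
  have e1 : (∫ x, ε * M.tr G H x ∂M.mu G) / M.vB H B ε = ∑ a, α a * r a ε := by
    rw [← hmean]
    simp only [(hpt _).1]
  have e2 : (∫ x, ((ε * M.tr G H x) ^ 2 - ε ^ 2 * M.ip G H H x) ∂M.mu G) / M.vB H B ε =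
      ∑ a, β a * r a ε := by
    rw [← hmean]
    simp only [(hpt _).2]
  have e3 := mean_sq (M.mu G) _ _ hv4 hv3 (hi hfs) (hi (hfs.pow 2))
  rw [integral_sub (hi (hfs.pow 2)) (hi hgs), sub_div] at e2
  simp only [yB]
  rw [integral_add (hi (hls.const_mul ε)) (hi (hfs.sub hgs)), integral_sub (hi hfs) (hi hgs),
    integral_const_mul, ((mGRN n M).2 G _ _ hGk hSs hSs).1, mul_zero, zero_add, sub_div, ← e1,
    ← e2]
  linarith

end Pool.Agent.Lib.K14
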