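import Pool.Agent.Lib.KR14.Key
import Pool.Agent.Lib.KR14.Alg
import Pool.Agent.Lib.RB.B_RCL
import Pool.Agent.Lib.RB.B_RDB
import Pool.Agent.Lib.RB.B_RMN
import Pool.Agent.Lib.GH.B_GLOC
import Pool.Agent.Lib.GH.B_GME

/-! Project kr24: the holomorphic limit of the fields `ε G⁻¹ H`. -/

open scoped Classical Topology ContDiff ComplexOrder Matrix
open Set MeasureTheory Complex Metric Filter

noncomputable section

namespace Pool.Agent.Lib.K14

open Pool.Agent.Lib.SV (E)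
open Pool.Agent.Lib.HS32 Pool.Agent.Lib.HS32.Mf Pool.Agent.Lib.HS76
open Pool.Agent.Lib.HS (dbp_grad dbp_entry dbp_der)

variable {n : ℕ} {M : Mf n} [M.Cpt] {H B : M.Fam (Mat n)}

theorem q_end {G : M.Fam (Mat n)} {ε : ℝ} (hH : M.Met H) (hG : M.Met G) (hε : 0 < ε) :
    M.End (M.qE G H ε) ∧ M.All fun e z => (H e z * M.qE G H ε e z).PosSemidef :=
  (RB.st_RDB RB.st_RCL n M H H hH hH).1 G ε hG hε

/-- Local bounds. -/
theorem db (hn : 0 < n) (hK : M.Met H) {e : M.Ch} (he : e ∈ M.C) {K : Set (E n)}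
    (hKc : IsCompact K) (hKs : K ⊆ e.target) : ∃ C : ℝ, 0 < C ∧
    (∀ f, M.Sm f → ∀ z ∈ K, ∀ l, ‖dzb l (M.lc f e) z‖ ^ 2 ≤ C * M.gr H f f (e.symm z)) ∧
    ∀ G (ε : ℝ), M.Met G → 0 < ε → M.Le ((ε / n) • H) G → ∀ z ∈ K, ∀ i j,
      ‖M.qE G H ε e z i j‖ ≤ C ∧ ∀ y, 0 ≤ ε * (en (G e) (H e) (H e) z).re →
        ε * (en (G e) (H e) (H e) z).re ≤ y →
        ∀ l, ‖dMb l (M.qE G H ε e) z i j‖ ^ 2 ≤ C * (M.tr H G (e.symm z) * y) := by
  obtain ⟨C, hC, hb⟩ := (mBD n M H hK).2.2.1 e he K hKc hKs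
  have hn' : (1 : ℝ) ≤ n := Nat.one_le_cast.2 hn
  have hI := mINV n M H hK
  have c1 : C ≤ n ^ 4 * C ^ 3 := by
    have := one_le_pow₀ (n := 4) hn'
    have := one_le_pow₀ (n := 2) hC
    nlinarith [mul_le_mul_of_nonneg_left this (zero_le_one.trans hC)]
  have c2 : n ^ 4 * C ^ 2 ≤ n ^ 4 * C ^ 3 := by gcongr; norm_num
  have c3 : n * C ^ 3 ≤ n ^ 4 * C ^ 3 := by
    gcongr; exact le_self_pow₀ hn' (by norm_num)
  refine ⟨n ^ 4 * C ^ 3, by positivity, fun f hf z hz l => ?_, fun G ε hG hε hs z hz i j => ?_⟩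
  · have hz' := hKs hz
    have hF := (mHES n M).2.2.1 f hf
    have hB : (M.ds f f e z).PosSemidef := by simpa using hF.2 e he z hz'
    have hP := hK.pos e he z hz'
    have r : M.gr H f f (e.symm z) = ((H e z)⁻¹ * M.ds f f e z).trace.re :=
      (hI.1 _ hF.1.toTen).1 e he z hz'
    have d : DifferentiableAt ℝ (M.lc f e) z := cd_diff (cd_ofReal (hf e he z hz'))
    have q : ‖M.ds f f e z l l‖ = ‖dzb l (M.lc f e) z‖ ^ 2 := by
      have s : star (dzb l (M.lc f e) z) = dz l (M.lc f e) z := star_dzb_ofReal d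
      change ‖dzb l (M.lc f e) z * dz l (M.lc f e) z‖ = _
      rw [norm_mul, ← s, norm_star, sq]
    rw [← q, r]
    exact (dbp_grad hP (hb z hz).2.1 hB l).trans
      (mul_le_mul_of_nonneg_right c1 (tr_nonneg hP hB))
  · have hz' := hKs hz
    have hP := hK.pos e he z hz'
    have hQ := hG.pos e he z hz'
    have h3 := hs e he z hz'
    refine ⟨(dbp_entry hn hε hC hQ hP (hb z hz).1 (hb z hz).2.1 h3 i j).trans c2,
      fun y y0 hy l => ?_⟩
    have lG := HS68.met_loc hG he hz'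
    have lH := HS68.met_loc hK he hz'
    have q : dMb l (M.qE G H ε e) z = ε • -((G e z)⁻¹ * (df (G e) (H e) l z)ᴴ * H e z) := by
      rw [← lG.dMb_quot lH l, ← dMb_rsmul ε (lG.smM_inv.mul lH.sm)]
      rfl
    have r : M.tr H G (e.symm z) = ((H e z)⁻¹ * G e z).trace.re := (hI.1 _ hG.toTen).1 e he z hz'
    have t0 := tr_nonneg hP hQ.posSemidef
    have k := dbp_der hn hε hC hQ hP (hb z hz).1 (hb z hz).2.1 h3
      (fun k => df (G e) (H e) k z) l i j
    rw [ip3_cyc] at k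
    rw [q, r]
    exact k.trans (mul_le_mul c3 (mul_le_mul_of_nonneg_left hy t0) (mul_nonneg t0 y0)
      (by positivity))

variable {ε : ℕ → ℝ} {u : ℕ → M.X → ℝ}

/-- Functions with small mean value are small in measure. -/
theorem nl_mean (hK : M.Kae H) (hB : M.Clo B) (hε : ∀ j, ε j ∈ Ioc (0 : ℝ) 1)
    (hu : ∀ j, M.SolB H B (ε j) (u j)) {y : ℕ → M.X → ℝ} (y0 : ∀ j x, 0 ≤ y j x)
    (ys : ∀ j, M.Sm (y j)) (ht : Tendsto (fun j =>
      (∫ x, y j x * Real.exp (u j x) ∂M.mu H) / M.vB H B (ε j)) atTop (𝓝 0)) :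
    Nl (M.mu H) y := by
  obtain ⟨-, hfin, -, -, hint, -⟩ := mMU n M H hK.toMet
  obtain ⟨C, hC, hp⟩ := phi hK hB
  choose a ha using fun j => (hp (ε j) (hε j) (u j) (hu j)).2
  have v0 := fun j => (vv_sol hK hB (hu j)).2.1
  have n1 : Nl (M.mu H) fun j x => y j x * (C * (Real.exp (u j x) / M.vB H B (ε j))) := by
    refine GH.G56.nl_int (fun j x => mul_nonneg (y0 j x) (by have := v0 j; positivity))
      (fun j => hint ℝ _ ((ys j).continuous.mul (continuous_const.mul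
        ((hu j).sm.exp.continuous.div_const _)))) ?_
    have := ht.const_mul C
    rw [mul_zero] at this
    refine this.congr fun j => ?_
    rw [← integral_div, ← integral_const_mul]
    exact integral_congr_ae (Eventually.of_forall fun x => by ring)
  have t1 : Tg (M.mu H) fun j x => Real.exp (a j - u j x) := fun η hη => by
    have hL : 1 ≤ 1 + C / η := le_add_of_nonneg_right (by positivity)
    refine ⟨Real.exp (1 + C / η), fun j => le_trans (le_of_eq ?_)
      (((ha j).2.2.2.2 _ hL).1.trans ?_)⟩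
    · refine congrArg _ (Set.ext fun x => ?_)
      simp only [mem_ofPred_eq, Real.exp_le_exp]
      constructor <;> intro h <;> linarith
    · rw [div_le_iff₀ (by linarith), mul_add, mul_div_cancel₀ _ hη.ne']
      linarith
  refine GH.G56.nl_mono (GH.G56.nl_mul (fun j x => mul_nonneg (y0 j x)
    (by have := v0 j; positivity)) (fun j x => (Real.exp_pos _).le) n1 t1) fun j x => ?_
  have h1 := mul_le_mul_of_nonneg_right ((ha j).2.2.2.1 x) (Real.exp_pos (a j - u j x)).le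
  rw [← Real.exp_add, sub_add_sub_cancel', sub_self, Real.exp_zero] at h1
  rw [mul_assoc]
  exact le_mul_of_one_le_right (y0 j x) h1

/-- The holomorphic limit. -/
theorem lim (hn : 0 < n) (hK : M.Kae H) (hB : M.Clo B) (hq : M.TwB H B)
    (hε : ∀ j, ε j ∈ Ioc (0 : ℝ) 1) (e0 : Tendsto ε atTop (𝓝 0))
    (hu : ∀ j, M.SolB H B (ε j) (u j)) (ht : Tendsto (fun j =>
      (∫ x, M.yB (M.gB H B (ε j) (u j)) H (ε j) x * Real.exp (u j x) ∂M.mu H) / M.vB H B (ε j))
      atTop (𝓝 0)) : ∃ P, M.HolSA H P ∧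
      M.L1c H (hyperfilter ℕ) (fun j => M.qE (M.gB H B (ε j) (u j)) H (ε j)) P := by
  have hl : (hyperfilter ℕ : Filter ℕ) ≤ atTop := Nat.hyperfilter_le_atTop
  have hM : M.Met H := hK.toMet
  have hE := fun j => q_end hM (hu j).kae.toMet (hε j).1
  refine HS.asGLUE n M H ℕ (hyperfilter ℕ) _ hM (Eventually.of_forall fun j =>
    ⟨(hE j).1, fun e he z hz => ((hE j).2 e he z hz).1⟩) fun e he c ρ hcρ => ?_
  obtain ⟨C1, hC1, hd1, hd2⟩ := db hn hM he (isCompact_closedBall c ρ) hcρ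
  obtain ⟨C2, hC2, hp⟩ := phi hK hB
  choose a ha using fun j => (hp (ε j) (hε j) (u j) (hu j)).2
  set η : ℕ → ℝ := fun j => (∫ x, M.yB (M.gB H B (ε j) (u j)) H (ε j) x * Real.exp (u j x)
    ∂M.mu H) / M.vB H B (ε j) with hη
  have hτ0 : Tendsto (fun j => C2 * |η j| + ε j) (hyperfilter ℕ) (𝓝 0) := by
    simpa using ((ht.abs.const_mul C2).add e0).mono_left hl
  refine GH.G18.core hM (hyperfilter ℕ) he hcρ
    (A := fun j => M.qE (M.gB H B (ε j) (u j)) H (ε j) e) (u := u)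
    (t := fun j => M.tr H (M.gB H B (ε j) (u j)))
    (y := fun j => M.yB (M.gB H B (ε j) (u j)) H (ε j))
    (v := fun j x => C2 * (Real.exp (u j x) / M.vB H B (ε j))) (a := a) hC1 hC2
    (fun j => add_pos_of_nonneg_of_pos (by positivity) (hε j).1) hτ0 (fun j => (hu j).sm)
    (fun j => ((mINV n M H hM).1 _ (hu j).kae.toTen).2.1.continuous)
    (fun j => (y_sm hM (hu j).kae.toMet).continuous)
    (fun j => continuous_const.mul ((hu j).sm.exp.continuous.div_const _))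
    (fun j => hM.tr_nonneg (hu j).kae.toMet.nonneg)
    (fun j => y_nonneg hK hB.toForm hq (hε j).1 (hu j)) (fun j => (ha j).1)
    (fun j => (ha j).2.1) (fun j => (ha j).2.2.2.1) (fun j L hL => ((ha j).2.2.2.2 L hL).2)
    (fun j => (hp (ε j) (hε j) (u j) (hu j)).1) (fun j => ?_)
    (fun j z hz => (hE j).1.sm e he z (hcρ hz)) (fun j z hz => hd1 _ (hu j).sm z hz)
    fun j z hz i k => ?_
  · have i2 : ∫ x, M.yB (M.gB H B (ε j) (u j)) H (ε j) x *
        (C2 * (Real.exp (u j x) / M.vB H B (ε j))) ∂M.mu H = C2 * η j := by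
      simp only [hη]
      rw [← integral_div, ← integral_const_mul]
      exact integral_congr_ae (Eventually.of_forall fun x => by ring)
    rw [i2]
    have := mul_le_mul_of_nonneg_left (le_abs_self (η j)) hC2.le
    have := (hε j).1
    linarith
  · have h1 := hd2 _ _ (hu j).kae.toMet (hε j).1 (sol_le hn hK hB.toForm hq (hε j).1 (hu j))
      z hz i k
    have h2 := y_ge hK hB.toForm hq (hε j).1 (hu j) e he z (hcρ hz)
    exact ⟨h1.1, h1.2 _ h2.1 h2.2⟩

open HS.PDET in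
/-- The limit of the mean value of the determinant. -/
theorem det_lim (hn : 0 < n) (hK : M.Kae H) (hB : M.Clo B) (hq : M.TwB H B)
    (hε : ∀ j, ε j ∈ Ioc (0 : ℝ) 1) (hu : ∀ j, M.SolB H B (ε j) (u j)) {P : M.Fam (Mat n)}
    (hP : M.End P) {l : Filter ℕ}
    (hL : M.L1c H l (fun j => M.qE (M.gB H B (ε j) (u j)) H (ε j)) P) {s c : ℝ} (s0 : 0 < s)
    (hc : M.All fun e z => (1 + s • P e z).det = c) :
    Tendsto (fun j => M.vB H B ((1 + s) * ε j) / M.vB H B (ε j) - c) l (𝓝 0) := by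
  obtain ⟨-, -, ⟨V, -⟩, -⟩ := mCOV n M
  obtain ⟨-, hfin, -, -, hint, -, hmu⟩ := mMU n M H hK.toMet
  obtain ⟨C, hC, hp⟩ := phi hK hB
  have hS : ∀ a, closedBall (V.c a) (V.ρ a) ⊆ (V.e a).target := fun a =>
    (closedBall_subset_closedBall (by linarith [V.pos a])).trans (V.sub a)
  let K : Fin V.r → Set M.X := fun a => (V.e a).symm '' closedBall (V.c a) (V.ρ a)
  have hKc : ∀ a, IsCompact (K a) := fun a =>
    (isCompact_closedBall _ _).image_of_continuousOn ((V.e a).continuousOn_symm.mono (hS a))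
  have hKs : ∀ a, K a ⊆ (V.e a).source := fun a => by
    rintro _ ⟨w, hw, rfl⟩
    exact (V.e a).map_target (hS a hw)
  obtain ⟨A, hA⟩ : ∃ A : ℕ → M.Fam (Mat n), A = fun j => M.qE (M.gB H B (ε j) (u j)) H (ε j) :=
    ⟨_, rfl⟩
  rw [← hA] at hL
  have lip : ∀ a, ∃ L : ℝ, 0 ≤ L ∧ ∀ j, ∀ z ∈ closedBall (V.c a) (V.ρ a),
      ‖(1 + s • A j (V.e a) z).det - c‖ ≤ L * ∑ i, ∑ k, ‖(A j (V.e a) z - P (V.e a) z) i k‖ :=
    fun a => by
      obtain ⟨R, hR, -, b1⟩ := db hn hK.toMet (V.mem a) (isCompact_closedBall _ _) (hS a)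
      obtain ⟨R', b2⟩ := RB.M51.ent_bd hP (V.mem a) (isCompact_closedBall _ _) (hS a)
      obtain ⟨L, hL0, h⟩ := det_lip' n (R := max R R') (le_max_of_le_left hR.le) s0.le
      refine ⟨L, hL0, fun j z hz => ?_⟩
      rw [← hc _ (V.mem a) z (hS a hz), hA]
      exact h _ _ (fun i k => le_max_of_le_left (b1 _ _ (hu j).kae.toMet (hε j).1
        (sol_le hn hK hB.toForm hq (hε j).1 (hu j)) z hz i k).1) fun i k =>
        le_max_of_le_right (b2 z hz i k)
  choose L hL0 lip using lip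
  have lim : Tendsto (fun j => ∑ a, C * L a * ∑ i, ∑ k, ∫ x in K a,
      ‖(A j (V.e a) (V.e a x) - P (V.e a) (V.e a x)) i k‖ ∂M.mu H) l (𝓝 0) := by
    have := tendsto_finsetSum Finset.univ fun a _ => (tendsto_finsetSum Finset.univ
      fun i _ => tendsto_finsetSum Finset.univ fun j _ =>
        hL _ (V.mem a) _ (hKc a) (hKs a) i j).const_mul (C * L a)
    simpa only [Finset.sum_const_zero, mul_zero] using this
  refine squeeze_zero_norm (fun j => ?_) lim
  have sol := hu j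
  obtain ⟨-, v0, v2⟩ := vv_sol hK hB sol
  obtain ⟨-, α, -, -, p1, -⟩ := hp _ (hε j) _ sol
  have pen : M.End (A j) := hA ▸ (q_end hK.toMet sol.kae.toMet (hε j).1).1
  obtain ⟨i1, i2, -⟩ := mINV n M H hK.toMet
  have hT : M.Form (M.gB H B (ε j) (u j) + (s * ε j) • H) :=
    sol.kae.toForm.add (hK.toForm.smul _)
  have v1 := vol_sol hK hB sol (s * ε j)
  rw [(hmu _ sol.kae.toMet).2.1] at v1
  simp only [← ((mINV n M H hK.toMet).2.2.2.2.2.2.2 _ sol.kae.toMet).2.2.1 _ hT] at v1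
  have d1 := hint ℝ _ (i1 _ hT.toTen).2.2.2.1.continuous
  have d2 := hint ℝ _ sol.sm.exp.continuous
  have di : ∀ a i k, IntegrableOn (fun x =>
      ‖(A j (V.e a) (V.e a x) - P (V.e a) (V.e a x)) i k‖) (K a) (M.mu H) := fun a i k => by
    refine ContinuousOn.integrableOn_compact (hKc a) fun x hx => ?_
    have hx' := (V.e a).map_source (hKs a hx)
    exact ((((pen.sm _ (V.mem a) _ hx').sub (hP.sm _ (V.mem a) _ hx')) i k).continuousAt.comp
      ((V.e a).continuousAt (hKs a hx))).norm.continuousWithinAt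
  let g : Fin V.r → M.X → ℝ := fun a x => C * L a * ∑ i, ∑ k,
    ‖(A j (V.e a) (V.e a x) - P (V.e a) (V.e a x)) i k‖
  have gi : ∀ a, Integrable ((K a).indicator (g a)) (M.mu H) := fun a =>
    (integrable_indicator_iff (hKc a).measurableSet).2 ((integrable_finsetSum _ fun i _ =>
      integrable_finsetSum _ fun k _ => di a i k).const_mul _)
  have g0 : ∀ a x, 0 ≤ (K a).indicator (g a) x := fun a =>
    indicator_nonneg fun x _ => mul_nonneg (mul_nonneg hC.le (hL0 a)) (by positivity)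
  have e1 : M.vB H B ((1 + s) * ε j) / M.vB H B (ε j) - c =
      ∫ x, (M.dq H (M.gB H B (ε j) (u j) + (s * ε j) • H) x - c * Real.exp (u j x)) /
        M.vB H B (ε j) ∂M.mu H := by
    rw [integral_div, integral_sub d1 (d2.const_mul c), integral_const_mul, v1, v2, sub_div,
      mul_div_cancel_right₀ _ v0.ne', add_mul, one_mul]
  have e2 : (∑ a, C * L a * ∑ i, ∑ k, ∫ x in K a,
      ‖(A j (V.e a) (V.e a x) - P (V.e a) (V.e a x)) i k‖ ∂M.mu H) =
      ∫ x, ∑ a, (K a).indicator (g a) x ∂M.mu H := by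
    rw [integral_finsetSum _ fun a _ => gi a]
    refine Finset.sum_congr rfl fun a _ => ?_
    rw [integral_indicator (hKc a).measurableSet, integral_const_mul,
      integral_finsetSum _ fun i _ => integrable_finsetSum _ fun k _ => di a i k]
    exact congrArg _ (Finset.sum_congr rfl fun i _ =>
      (integral_finsetSum _ fun k _ => di a i k).symm)
  rw [e1, e2]
  refine norm_integral_le_of_norm_le (integrable_finsetSum _ fun a _ => gi a)
    (ae_of_all _ fun x => ?_)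
  obtain ⟨a, hx, hb, -⟩ := V.cov x
  have hz := ball_subset_closedBall hb
  refine le_trans ?_ (Finset.single_le_sum (fun a _ => g0 a x) (Finset.mem_univ a))
  rw [indicator_of_mem (show x ∈ K a from ⟨_, hz, (V.e a).left_inv hx⟩)]
  have f1 := (AllOn.at (i2 _ hT) (V.mem a) hx).2.1
  have f2 := (AllOn.at (i2 _ sol.kae.toForm) (V.mem a) hx).2.1
  rw [(V.e a).left_inv hx] at f1 f2
  rw [sol.det] at f2
  have f3 : ((M.dq H (M.gB H B (ε j) (u j) + (s * ε j) • H) x - c * Real.exp (u j x) : ℝ) : ℂ) =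
      (Real.exp (u j x) : ℝ) * ((1 + s • A j (V.e a) (V.e a x)).det - c) := by
    rw [ofReal_sub, ofReal_mul, f1, f2, hA]
    refine (congrArg (fun w => w / _ - _)
      (det_fac (AllOn.at sol.kae.pos (V.mem a) hx) s (ε j))).trans ?_
    rw [mul_sub, mul_comm (c : ℂ), mul_div_right_comm]
    rfl
  rw [norm_div, ← Complex.norm_real, f3, norm_mul, Complex.norm_real,
    Real.norm_of_nonneg (Real.exp_pos _).le, Real.norm_of_nonneg v0.le, mul_div_right_comm]
  exact (mul_le_mul (p1 x) (lip a j _ hz) (norm_nonneg _) hC.le).trans_eq (mul_assoc _ _ _).symm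

end Pool.Agent.Lib.K14
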