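import Pool.Agent.Lib.RB.Defs
import Pool.Agent.Lib.GH.B_GSB
import Pool.Agent.Lib.HS76.Mom

/-! Project kr24: volumes and normalized potentials for the twisted equation. -/

open scoped Topology ComplexOrder Matrix
open Set MeasureTheory Filter

noncomputable section

namespace Pool.Agent.Lib.HS32.Mf

/-- The volume of the class of `ε H + B - Ric H`. -/
def vB {n : ℕ} (M : Mf n) (H B : M.Fam (Mat n)) (ε : ℝ) : ℝ :=
  ∫ x, M.dq H (ε • H + (B - M.ric H)) x ∂M.mu H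

end Pool.Agent.Lib.HS32.Mf

namespace Pool.Agent.Lib.K14

open Pool.Agent.Lib.HS32 Pool.Agent.Lib.HS32.Mf Pool.Agent.Lib.HS76
open Pool.Agent.Lib.GH.G34 (sol_det)

variable {n : ℕ} {M : Mf n} [M.Cpt] {H B : M.Fam (Mat n)} {ε : ℝ} {u : M.X → ℝ}

theorem int_sol (hK : M.Kae H) (hu : M.SolB H B ε u) (f : M.X → ℝ) :
    ∫ x, f x ∂M.mu (M.gB H B ε u) = ∫ x, f x * Real.exp (u x) ∂M.mu H := by
  rw [((mMU n M H hK.toMet).2.2.2.2.2.2 _ hu.kae.toMet).2.1 f]
  simp only [hu.det, mul_comm]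

theorem vol_sol (hK : M.Kae H) (hB : M.Clo B) (hu : M.SolB H B ε u) (s : ℝ) :
    ∫ x, M.dq (M.gB H B ε u) (M.gB H B ε u + s • H) x ∂M.mu (M.gB H B ε u) = M.vB H B (ε + s) := by
  have hr := hB.sub ((mHES n M).2.2.2.2.2.2.2.2.1 H hK.toMet)
  have a : M.gB H B ε u + s • H = (ε + s) • H + (B - M.ric H) + M.hs u := by
    simp only [Mf.gB, add_smul]
    abel
  rw [((mMU n M H hK.toMet).2.2.2.2.2.2 _ hu.kae.toMet).2.1, vB,
    ← mCOH n M H _ u hK.toMet ((hK.toClo.smul _).add hr) hu.sm, ← a]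
  simp only [← ((mINV n M H hK.toMet).2.2.2.2.2.2.2 _ hu.kae.toMet).2.2.1 _
    (hu.kae.toForm.add (hK.toForm.smul s))]

theorem vv_sol (hK : M.Kae H) (hB : M.Clo B) (hu : M.SolB H B ε u) :
    (M.mu (M.gB H B ε u)).real univ = M.vB H B ε ∧ 0 < M.vB H B ε ∧
      ∫ x, Real.exp (u x) ∂M.mu H = M.vB H B ε := by
  have a := vol_sol hK hB hu 0
  simp only [zero_smul, add_zero, hu.kae.toMet.dq_self, integral_const, smul_eq_mul,
    mul_one] at a
  have b := int_sol hK hu fun _ => 1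
  simp only [integral_const, smul_eq_mul, mul_one, one_mul] at b
  exact ⟨a, a ▸ (mMU n M _ hu.kae.toMet).2.2.2.1, b.symm.trans a⟩

open Polynomial in
/-- The order of vanishing of the volume. -/
theorem ord (hK : M.Kae H) (hB : M.Form B) (hp : ∀ ε : ℝ, 0 < ε → 0 < M.vB H B ε) :
    ∃ k ≤ n, ∃ c : ℝ, 0 < c ∧ Tendsto (fun ε => M.vB H B ε / ε ^ k) (𝓝[>] 0) (𝓝 c) := by
  have hr := hB.sub ((mHES n M).2.2.2.2.2.2.2.2.1 H hK.toMet).toForm
  obtain ⟨L, hL, hI⟩ := interp_mat n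
  have hi : ∀ t : ℝ, Integrable (M.dq H (t • H + (B - M.ric H))) (M.mu H) := fun t =>
    (mMU n M H hK.toMet).2.2.2.2.1 ℝ _
      ((mINV n M H hK.toMet).1 _ ((hK.toForm.smul t).add hr).toTen).2.2.2.1.continuous
  have hv : ∀ ε : ℝ, (∑ a : Fin (n + 1), C (M.vB H B ((a : ℝ) + 1)) * L a).eval ε =
      M.vB H B ε := fun ε => by
    have e1 : ∀ x, M.dq H (ε • H + (B - M.ric H)) x = ∑ a : Fin (n + 1),
        (L a).eval ε * M.dq H (((a : ℝ) + 1) • H + (B - M.ric H)) x := fun x =>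
      hI (M.ev H x) (M.ev (B - M.ric H) x) (hK.toMet.ev_pos x) (AllOn.ch hr.herm x) ε
    conv_rhs => rw [vB]
    simp only [e1]
    rw [integral_finsetSum _ fun a _ => (hi _).const_mul _]
    simp only [eval_finsetSum, eval_mul, eval_C, integral_const_mul, vB, mul_comm]
  obtain ⟨k, hk, c, hc, hl⟩ := ord_exists
    (∑ a : Fin (n + 1), C (M.vB H B ((a : ℝ) + 1)) * L a) fun ε hε => hv ε ▸ hp ε hε
  exact ⟨k, hk.trans (natDegree_sum_le_of_forall_le _ _ fun a _ =>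
    (natDegree_C_mul_le _ _).trans (hL a)), c, hc, by simpa only [hv] using hl⟩

/-- Upper bounds. -/
theorem upper (hK : M.Kae H) (hB : M.Form B) : ∃ C : ℝ, 1 ≤ C ∧ ∀ ε ∈ Ioc (0 : ℝ) 1, ∀ u,
    M.SolB H B ε u → M.Le 0 (C • H + M.hs u) ∧ (∀ x, Real.exp (u x) ≤ C ^ n) ∧
      ∫ x, M.tr H (M.gB H B ε u) x ∂M.mu H ≤ (M.mu H).real univ * (C * n) := by
  obtain ⟨c, hc, hr, -⟩ := (mBD n M H hK.toMet).1 _
    (hB.sub ((mHES n M).2.2.2.2.2.2.2.2.1 H hK.toMet).toForm)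
  obtain ⟨-, hf, -, hv, hi, -⟩ := mMU n M H hK.toMet
  refine ⟨1 + c, by linarith, fun ε hε u hu => ?_⟩
  have h1 : M.Le (ε • H + B - M.ric H) ((1 + c) • H) := by
    have := (hK.toMet.le_smul hε.2).add hr
    rwa [← add_smul, ← add_sub_assoc] at this
  refine ⟨hu.kae.toMet.nonneg.trans (h1.add (Le.refl (M.hs u))), ?_, ?_⟩
  · obtain ⟨y, hy⟩ := hu.sm.exists_max
    have h3 := ((((mLAP n M _ _ hu.sm hu.sm).2.2 _ hK.toMet).2.2.1 y 0).2.2.2.2.2.2.2.2.1
      (Eventually.of_forall hy)).2.2 _ (ch_mem y) (mem_ch y)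
    have h4 := (AllOn.ch h1 y).add h3
    rw [← sub_eq_add_neg, sub_sub] at h4
    have h6 := det_le_of_le (c := 1 + c) (hK.toMet.ev_pos y) (hu.kae.toMet.ev_pos y).posSemidef h4
    have h7 := AllOn.ch (sol_det hK hu) y
    rw [ch_symm] at h7
    rw [Fintype.card_fin, ev, ev, h7] at h6
    exact fun x => (Real.exp_le_exp.2 (hy x)).trans
      (le_of_mul_le_mul_right h6 (pd_det_re (hK.toMet.ev_pos y)))
  have hs := ((mLAP n M _ _ hu.sm hu.sm).2.2 _ hK.toMet).1
  have h3 := integral_mono (μ := M.mu H) (g := fun x => (1 + c) * n + M.lap H u x)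
    (hi ℝ _ ((mINV n M H hK.toMet).1 _ hu.kae.toTen).2.1.continuous)
    (hi ℝ _ ((sm_const _).add hs).continuous) fun x => by
      have := hK.toMet.tr_mono h1 x
      rw [tr_smul, hK.toMet.tr_self] at this
      beta_reduce
      rw [gB, tr_add, lap]
      linarith
  rw [integral_add (integrable_const _) (hi ℝ _ hs.continuous), integral_const,
    ((mGRN n M).2 H u u hK hu.sm hu.sm).1, smul_eq_mul] at h3
  linarith

/-- The normalized potentials. -/
theorem phi (hK : M.Kae H) (hB : M.Clo B) : ∃ C : ℝ, 0 < C ∧ ∀ ε ∈ Ioc (0 : ℝ) 1, ∀ u,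
    M.SolB H B ε u → ∫ x, M.tr H (M.gB H B ε u) x ∂M.mu H ≤ C ∧ ∃ a : ℝ, (∀ x, u x ≤ a) ∧
    ∫ x, (a - u x) ∂M.mu H ≤ C ∧ (∀ x, Real.exp (u x) / M.vB H B ε ≤ C) ∧
    (∀ x, Real.exp (u x - a) ≤ C * (Real.exp (u x) / M.vB H B ε)) ∧
    ∀ L : ℝ, 1 ≤ L → (M.mu H).real {x | u x - a ≤ -L} ≤ C / L ∧
      ∫ x, Real.exp ((u x - a) / L) * M.gr H u u x ∂M.mu H ≤ C * L := by
  have hL := mLAP
  obtain ⟨C₀, h0, hC₀⟩ := upper hK hB.toForm
  obtain ⟨C₁, h1, hC₁, -⟩ := mPSH n M H C₀ hK.toMet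
  obtain ⟨-, hf, -, hv, hi, -⟩ := mMU n M H hK.toMet
  obtain ⟨m, hm⟩ : ∃ m, m = (M.mu H).real univ := ⟨_, rfl⟩
  rw [← hm] at hv hC₀
  have p1 : 0 < (Real.exp (-C₁ / m) * m)⁻¹ := by positivity
  have p2 : 0 ≤ C₀ * n * m := by positivity
  refine ⟨C₁ + (Real.exp (-C₁ / m) * m)⁻¹ + m + C₀ * n * m, by positivity, fun ε hε u hu => ?_⟩
  obtain ⟨y, hy⟩ := hu.sm.exists_max
  obtain ⟨hle, -, htr⟩ := hC₀ ε hε u hu
  obtain ⟨-, hp, he⟩ := vv_sol hK hB hu
  have s1 : M.Sm fun x => u x - u y := hu.sm.sub (sm_const _)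
  have i1 := hi ℝ _ s1.continuous
  have i2 := hi ℝ _ hu.sm.exp.continuous
  have a1 : -C₁ ≤ ∫ x, (u x - u y) ∂M.mu H := by
    refine hC₁ _ s1 (fun e he z hz => ?_) (fun x => sub_nonpos.2 (hy x)) ⟨y, sub_self _⟩
    have := (hL n M u _ hu.sm (sm_const (u y))).1 (u y) e he z hz
    have h2 := hle e he z hz
    simp only [Pi.add_apply] at h2 ⊢
    rwa [this.2.2.1, this.1, sub_zero (M.hs u e z)]
  have a2 : ∫ x, (u y - u x) ∂M.mu H ≤ C₁ := by
    have := integral_neg (μ := M.mu H) fun x => u x - u y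
    simp only [neg_sub] at this
    linarith
  have a3 : Real.exp (u y) * (Real.exp (-C₁ / m) * m) ≤ M.vB H B ε := by
    have h2 := integral_mono (μ := M.mu H) (f := fun x => Real.exp (u y) * Real.exp (-C₁ / m) *
      ((u x - u y) + (C₁ / m + 1))) ((i1.add (integrable_const _)).const_mul _) i2 fun x => by
        have := mul_le_mul_of_nonneg_left (Real.add_one_le_exp (u x - u y + C₁ / m))
          (Real.exp_pos (u y + -C₁ / m)).le
        rwa [← Real.exp_add, show u y + -C₁ / m + (u x - u y + C₁ / m) = u x by ring,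
          Real.exp_add, add_assoc] at this
    rw [he, integral_const_mul, integral_add i1 (integrable_const _), integral_const, ← hm,
      smul_eq_mul, mul_add m, mul_div_cancel₀ _ hv.ne', mul_assoc] at h2
    exact le_trans (mul_le_mul_of_nonneg_left (mul_le_mul_of_nonneg_left (by linarith)
      (Real.exp_pos _).le) (Real.exp_pos _).le) h2
  have a4 : M.vB H B ε ≤ m * Real.exp (u y) := by
    have h2 := integral_mono (μ := M.mu H) i2 (integrable_const (Real.exp (u y)))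
      fun x => Real.exp_le_exp.2 (hy x)
    rwa [he, integral_const, ← hm] at h2
  refine ⟨by nlinarith, u y, hy, by linarith, fun x => ?_, fun x => ?_, fun L hL1 => ⟨?_, ?_⟩⟩
  · refine le_trans ?_ (show (Real.exp (-C₁ / m) * m)⁻¹ ≤ _ by linarith)
    rw [div_le_iff₀ hp, le_inv_mul_iff₀ (by positivity), mul_comm]
    exact (mul_le_mul_of_nonneg_right (Real.exp_le_exp.2 (hy x)) (by positivity)).trans a3
  · refine le_trans ?_ (mul_le_mul_of_nonneg_right (show m ≤ _ by linarith) (by positivity))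
    rw [Real.exp_sub, ← mul_div_assoc, div_le_div_iff₀ (Real.exp_pos _) hp, mul_comm m, mul_assoc]
    exact mul_le_mul_of_nonneg_left a4 (Real.exp_pos _).le
  · have h2 := mul_meas_ge_le_integral_of_nonneg (μ := M.mu H) (f := fun x => u y - u x)
      (Filter.Eventually.of_forall fun x => sub_nonneg.2 (hy x))
      (hi ℝ _ ((sm_const _).sub hu.sm).continuous) L
    rw [le_div_iff₀' (by linarith), show {x | u x - u y ≤ -L} = {x | L ≤ u y - u x} from
      Set.ext fun x => le_neg.trans (congrArg (L ≤ ·) (neg_sub (u x) (u y))).to_iff]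
    linarith
  · have hL0 : 0 < L := by linarith
    have c1 : ∀ x, ContDiffAt ℝ (⊤ : ℕ∞) (fun s => Real.exp ((s - u y) / L)) (u x) :=
      fun x => ((contDiffAt_id.sub contDiffAt_const).div_const L).exp
    have s2 : M.Sm fun x => Real.exp ((u x - u y) / L) := ((hL n M u u hu.sm hu.sm).2.1 _ c1).1
    have hu2 := (hL n M u u hu.sm hu.sm).2.2 H hK.toMet
    have h2 := ((mGRN n M).2 H u _ hK hu.sm s2).2.1
    have h3 : ∀ x, M.gr H u (fun x => Real.exp ((u x - u y) / L)) x =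
        L⁻¹ * (Real.exp ((u x - u y) / L) * M.gr H u u x) := fun x => by
      rw [(((hL n M u _ hu.sm s2).2.2 H hK.toMet).2.2.1 x 0).2.2.2.2.2.1, (hu2.2.2.2.1 _ c1 x).2,
        ((((hasDerivAt_id' (u x)).sub_const (u y)).div_const L).exp).deriv]
      ring
    simp only [h3, integral_const_mul] at h2
    have h4 := integral_mono (μ := M.mu H) (integrable_const (-(C₀ * n)))
      (hi ℝ _ (s2.mul hu2.1).continuous) fun x => by
        have h5 := hK.toMet.tr_nonneg hle x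
        rw [tr_add, tr_smul, hK.toMet.tr_self] at h5
        have h6 : Real.exp ((u x - u y) / L) ≤ 1 :=
          Real.exp_le_one_iff.2 (div_nonpos_of_nonpos_of_nonneg (sub_nonpos.2 (hy x)) hL0.le)
        have h7 : 0 ≤ C₀ * n := by positivity
        beta_reduce
        rw [lap]
        nlinarith [Real.exp_pos ((u x - u y) / L)]
    rw [h2, integral_const, ← hm, smul_eq_mul, mul_neg, neg_le_neg_iff, inv_mul_le_iff₀ hL0] at h4
    nlinarith

end Pool.Agent.Lib.K14
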